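import Pool.Agent.K4H10.FM.Fin

set_option autoImplicit false

/-!
# Systems of linear forms with simultaneously composite values

Cramér's conjecture asks how long a run `n + 1, ..., n + h` of composite numbers can be, `n ≤ X`. Here the run
is replaced by the values at `n` of an arbitrary system of linear forms with small coefficients: every
system of `(1/4 - ε) log X loglog X` shifts in a window of length `(log X)^2`, and more generally every system of
forms `a n + b` of this size, is simultaneously composite at some `n` of each interval of length `X`. The trivial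
bound (each form is prime at a proportion `1 / log X` of the integers) is `log X`.

Authors: helper10 (K4): greedy choice for systems of forms, assembly. The proof rests on the covering theorem
with a count (Y831/RC4) and on the square sieve of helper256 (starting repository).
-/

namespace Pool.Agent.Results.MP_b0c12c_nt.CompositeSystems

/-- the integers `n ∈ (M, M + X]` such that each of the numbers `a n + b`, `(a, b) ∈ F`, has a prime
factor `p ≤ y` -/
def Composite (F : Finset (ℕ × ℤ)) (M X y : ℝ) : Set ℤ :=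
  {n | M < n ∧ (n : ℝ) ≤ M + X ∧
    ∀ f ∈ F, ∃ p : ℕ, p.Prime ∧ (p : ℝ) ≤ y ∧ (p : ℤ) ∣ f.1 * n + f.2}

/-- Let `1 < c ≤ 2`, `0 < θ ≤ 1`, `ε > 0` and `δ > 0`. For all large `X`, every finite set `F` of linear forms
`a n + b` with `1 ≤ a ≤ (log X)^c`, whose determinants `a b' - a' b` are non-zero and at most `(log X)^c` in
absolute value, and with `∑ a / φ(a) ≤ (θ² / (2 c) - ε) log X loglog X`, and every real `M`, there are at least
`X exp (-(log X)^θ)` integers `n` in `(M, M + X]` for which each of the numbers `a n + b` has a prime factor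
at most `X^δ`. -/
theorem result (c θ ε δ : ℝ) (hc1 : 1 < c) (hc2 : c ≤ 2) (hθ : 0 < θ) (hθ1 : θ ≤ 1) (hε : 0 < ε)
    (hδ : 0 < δ) : ∃ X₀ : ℝ, ∀ X : ℝ, X₀ ≤ X → ∀ F : Finset (ℕ × ℤ),
      (∀ f ∈ F, 1 ≤ f.1 ∧ (f.1 : ℝ) ≤ (Real.log X) ^ c) →
      (∀ f ∈ F, ∀ g ∈ F, f ≠ g → (f.1 : ℤ) * g.2 - g.1 * f.2 ≠ 0 ∧
        |(f.1 : ℝ) * g.2 - g.1 * f.2| ≤ (Real.log X) ^ c) →
      ∑ f ∈ F, (f.1 : ℝ) / f.1.totient ≤
        (θ ^ 2 / (2 * c) - ε) * (Real.log X * Real.log (Real.log X)) →
      ∀ M : ℝ, X * Real.exp (-(Real.log X) ^ θ) ≤ ((Composite F M X (X ^ δ)).ncard : ℝ) := by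
  obtain ⟨X₀, h⟩ := Pool.Agent.K4H10.FM.systems c θ ε δ hc1 hc2 hθ hθ1 hε hδ
  refine ⟨X₀, fun X hX F h1 h2 h3 M => ?_⟩
  refine h X hX F h1 (fun f hf g hg hfg => ?_) h3 M
  obtain ⟨h4, h5⟩ := h2 f hf g hg hfg
  refine ⟨h4, ?_⟩
  push_cast
  exact h5

end Pool.Agent.Results.MP_b0c12c_nt.CompositeSystems
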