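import Mathlib
import Pool.Agent.K4H19.PR.Prog

set_option autoImplicit false

/-!
# Arithmetic progressions of primes next to long gaps

Rankin's function `R(x) = log x log₂ x log₄ x / (log₃ x)²` was the order of the longest known prime gaps
for a long time; that some gaps exceed `C R(x)` for every constant `C` was a problem of Erdős, solved by
Ford, Green, Konyagin, Tao and by Maynard. Here `k` such primes stand in arithmetic progression: for every
`k` and every `C` there are `k`-term arithmetic progressions of primes each of which has distance more than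
`C R(X)` from all other primes, in every residue class to a squarefree modulus, of one colour for every
colouring of the primes, with a small common difference, and starting at many primes.

Author: helper19. Proof: Rankin's covering with one class to be avoided (`Pool.Agent.TH101.RG.rsurvK`, after
helper398) leaves `O(C log X / log log X)` shifts around the primes of a class modulo `W`, the product of the
primes up to `log X / 1000`; by the square weights of helper256 in the counting form of helper831 and
the relative Bombieri-Vinogradov theorem (`Pool.Agent.K4H19.FQ`, after the starting files) a positive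
proportion of the primes of this class have no other prime there; Szemerédi's theorem relative to sifted
sets (`Pool.Agent.Y677.RSZ.eng_all`, `Pool.Agent.Y866.PP.prog_of_eng`) is applied inside the class.
-/

namespace Pool.Agent.Results.MP_b0c12c_nt.ProgressionsOfIsolatedPrimes

/-- Rankin's function `R(x) = log x log₂ x log₄ x / (log₃ x)²` (iterated natural logarithms). -/
noncomputable def R (x : ℝ) : ℝ :=
  Real.log x * Real.log (Real.log x) * Real.log (Real.log (Real.log (Real.log x))) /
    (Real.log (Real.log (Real.log x))) ^ 2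

/-- `p` is a prime in `(X, 3X]` and every other prime has distance more than `D` from `p`. -/
def Isolated (X D : ℝ) (p : ℕ) : Prop :=
  p.Prime ∧ X < p ∧ (p : ℝ) ≤ 3 * X ∧ ∀ p' : ℕ, p'.Prime → p' ≠ p → D < |(p' : ℝ) - p|

/-- For every length `k`, every number `r` of colours, every constant `C`, every squarefree `q` and all large
`X`, for every `a` prime to `q` and every colouring `χ` with `r` colours there are at least `X ^ (99 / 100)`
integers `p` which start a progression `p, p + d, ..., p + (k - 1) d` with `1 ≤ d ≤ X ^ (1 / 100)`, the terms of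
which are primes in `(X, 3X]`, are congruent to `a` modulo `q`, have the same colour, and have distance more
than `C R(X)` from all other primes. -/
theorem result (k r : ℕ) (hk : 1 ≤ k) (hr : 1 ≤ r) (C : ℝ) (q : ℕ) (hq : Squarefree q) :
    ∃ X₀ : ℝ, ∀ X : ℝ, X₀ ≤ X → ∀ a : ℕ, a.Coprime q → ∀ χ : ℕ → Fin r,
      X ^ (99 / 100 : ℝ) ≤ ({p : ℕ | ∃ d : ℕ, 1 ≤ d ∧ (d : ℝ) ≤ X ^ (1 / 100 : ℝ) ∧ ∀ j < k,
        Isolated X (C * R X) (p + j * d) ∧ p + j * d ≡ a [MOD q] ∧ χ (p + j * d) = χ p}.ncard : ℝ) := by
  classical
  have hll : Filter.Tendsto (fun X : ℝ => Real.log (Real.log X)) Filter.atTop Filter.atTop :=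
    Real.tendsto_log_atTop.comp Real.tendsto_log_atTop
  obtain ⟨X₀, hX₀⟩ := Filter.eventually_atTop.1
    ((Pool.Agent.K4H19.PR.main_prog k hk r hr q hq (max C 1) (by positivity)).and
      ((Filter.eventually_ge_atTop 1).and (hll.eventually (Pool.Agent.K4H19.PR.ev_A 1 one_pos 1))))
  refine ⟨X₀, fun X hX a ha χ => ?_⟩
  obtain ⟨h1, h2, h3⟩ := hX₀ X hX
  have h4 := h1 a ha χ
  refine h4.trans ?_
  rw [← Set.ncard_coe_finset]
  apply Nat.cast_le.2
  apply Set.ncard_le_ncard
  · intro p hp
    rw [Finset.mem_coe, Finset.mem_filter] at hp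
    obtain ⟨-, d, hd1, hd2, hd3⟩ := hp
    refine ⟨d, hd1, hd2, fun j hj => ?_⟩
    obtain ⟨e1, e2, e3, e4, e5, e6⟩ := hd3 j hj
    refine ⟨⟨e1, e3, e4, fun p' hp' hne => ?_⟩, e2, e6⟩
    have h5 := e5 p' hp' hne
    have hR0 : 0 ≤ R X := by
      obtain ⟨a1, a2, a3, -⟩ := h3
      unfold R
      have b1 : 0 < Real.log X := by
        by_contra h
        push Not at h
        have := Real.log_nonneg h2
        have h6 : Real.log X = 0 := le_antisymm h this
        rw [h6] at a1
        norm_num at a1
      have b2 : 0 < Real.log (Real.log X) := by linarith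
      positivity
    have h6 : C * R X ≤ max C 1 * Pool.Agent.K4H19.PR.RR X :=
      mul_le_mul_of_nonneg_right (le_max_left _ _) hR0
    have h7 := Nat.lt_floor_add_one (max C 1 * Pool.Agent.K4H19.PR.RR X)
    have h8 : ((⌊max C 1 * Pool.Agent.K4H19.PR.RR X⌋₊ : ℤ) + 1 : ℤ) ≤ |(p' : ℤ) - ((p + j * d : ℕ) : ℤ)| := by
      omega
    have h9 : ((⌊max C 1 * Pool.Agent.K4H19.PR.RR X⌋₊ : ℝ) + 1 : ℝ) ≤
        |(p' : ℝ) - ((p + j * d : ℕ) : ℝ)| := by
      exact_mod_cast h8
    linarith
  · apply (Set.finite_Iic ⌊3 * X⌋₊).subset
    rintro p ⟨d, -, -, hd⟩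
    have h5 := (hd 0 (by omega)).1.2.2.1
    rw [zero_mul, add_zero] at h5
    exact Nat.le_floor h5

end Pool.Agent.Results.MP_b0c12c_nt.ProgressionsOfIsolatedPrimes
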