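import Pool.Agent.K4H10.BR.Thr

set_option autoImplicit false

/-!
# The exact capacity of the square sieve

The largest known prime gaps come from the following method. After a run of integers has been sieved by
the primes up to about `log X`, the `N` surviving shifts `h k` are killed at one integer `n` of an interval of
length `X` by larger primes, and `n` is found with a sum of squares `∑ V(n)²` of functions of level `X^(1/2)`:
if the weighted mean of the number of shifts that stay alive is less than `1`, then some `n` kills them all.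
The theorem determines, asymptotically, how many shifts this can kill. With `L = log X` and the primes
beyond `L²` the threshold is `N ∏_{p ≤ L²} (1 - 1/p)⁻¹ = (1/2) L log L`, that is
`N ~ (e^(-γ) / 4) log X`; below it the method kills every set of `N` shifts, above it no weights of this kind can
bring the mean number of living shifts below `c log log X`. The lower bound holds for the primes beyond any
`w` between `L` and `X^c`, with the threshold `(1/2) L log (L / log w)`.

Authors: helper10 (K4). The part below the threshold sharpens the square sieve of helper256 (starting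
repository), the part above it is new.
-/

namespace Pool.Agent.Results.MP_b0c12c_nt.SquareSieveThreshold

open Finset

open scoped Classical

/-- `∏_{p ≤ w} (1 - 1/p)⁻¹`, which is asymptotic to `e^γ log w` -/
noncomputable def mertens (w : ℝ) : ℝ := ∏ p ∈ Icc 1 ⌊w⌋₊ with p.Prime, (1 - (p : ℝ)⁻¹)⁻¹

/-- the indicator function of the residue class of `a` modulo `d` -/
noncomputable def cls (d : ℕ) (a : ℤ) : ℤ → ℝ := fun n => if (d : ℤ) ∣ n - a then 1 else 0

/-- the functions of level `Q`: linear combinations of indicator functions of residue classes to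
moduli `d ∣ P` with `d ≤ Q` -/
noncomputable def Level (P : ℕ) (Q : ℝ) : Submodule ℝ (ℤ → ℝ) :=
  Submodule.span ℝ {f | ∃ (d : ℕ) (a : ℤ), d ∣ P ∧ (d : ℝ) ≤ Q ∧ f = cls d a}

/-- the number of the shifts `h k` alive at `n`: no prime `p ∈ S` divides `n + h k` -/
noncomputable def alive (S : Finset ℕ) {N : ℕ} (h : Fin N → ℤ) (n : ℤ) : ℕ :=
  ((univ : Finset (Fin N)).filter (fun k => ∀ p ∈ S, ¬ ((p : ℕ) : ℤ) ∣ n + h k)).card

/-- the shifts `h k` are pairwise incongruent modulo `p` -/
def Distinct {N : ℕ} (h : Fin N → ℤ) (p : ℕ) : Prop := ∀ i j, (p : ℤ) ∣ h i - h j → i = j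

/-- For every `0 < ε ≤ 1/10` there are `c > 0` and `L₀` such that for all `L ≥ L₀`:

(1) if `N ∏_{p ≤ L²} (1 - 1/p)⁻¹ ≤ (1/2 - ε) L log L`, then for all shifts `h 0, ..., h (N-1)` that are
pairwise incongruent modulo the primes `p > L²` there are a set `S` of primes in `(L², e^(εL)]` and a function
`V` of level `e^(L/2)` such that the mean of `V²` times the number of living shifts is at most `1/3` of the mean
of `V²`; and every interval `[M, M + e^L]` contains an `n` such that each `n + h k` is divisible by a prime in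
`(L², e^(εL)]`;

(2) if `L ≤ w ≤ e^(cL)` and `N ∏_{p ≤ w} (1 - 1/p)⁻¹ ≥ (1/2 + ε) L log (L / log w)`, then for every finite set `S`
of primes `p > w`, all shifts that are pairwise incongruent modulo the primes of `S` and all functions
`V 0, ..., V (J-1)` of level `e^(L/2)` the mean of `∑ V j²` times the number of living shifts is at least
`c N ∏_{p ∈ S} (1 - 1/p)` times the mean of `∑ V j²`, and, if the primes of `S` are at most `e^L`, at least
`c log (L / log w)` times it. The means are over `n` modulo the product of the primes of `S`. -/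
theorem result (ε : ℝ) (hε : 0 < ε) (hε1 : ε ≤ 1 / 10) : ∃ c L₀ : ℝ, 0 < c ∧ ∀ L : ℝ, L₀ ≤ L →
    (∀ (N : ℕ) (h : Fin N → ℤ), (∀ p : ℕ, p.Prime → L ^ 2 < p → Distinct h p) →
      N * mertens (L ^ 2) ≤ (1 / 2 - ε) * L * Real.log L →
      (∃ S : Finset ℕ, (∀ p ∈ S, p.Prime ∧ L ^ 2 < p ∧ (p : ℝ) ≤ Real.exp (ε * L)) ∧
        ∃ V ∈ Level (∏ p ∈ S, p) (Real.exp (L / 2)),
          0 < ∑ n ∈ range (∏ p ∈ S, p), V n ^ 2 ∧
          ∑ n ∈ range (∏ p ∈ S, p), V n ^ 2 * alive S h n ≤
            1 / 3 * ∑ n ∈ range (∏ p ∈ S, p), V n ^ 2) ∧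
      ∀ M : ℤ, ∃ n : ℤ, M ≤ n ∧ (n : ℝ) ≤ M + Real.exp L ∧
        ∀ k, ∃ p : ℕ, p.Prime ∧ L ^ 2 < p ∧ (p : ℝ) ≤ Real.exp (ε * L) ∧ (p : ℤ) ∣ n + h k) ∧
    (∀ w : ℝ, L ≤ w → w ≤ Real.exp (c * L) → ∀ S : Finset ℕ, (∀ p ∈ S, p.Prime ∧ w < p) →
      ∀ (N : ℕ) (h : Fin N → ℤ), (∀ p ∈ S, Distinct h p) →
      (1 / 2 + ε) * L * Real.log (L / Real.log w) ≤ N * mertens w →
      ∀ (J : ℕ) (V : Fin J → ℤ → ℝ), (∀ j, V j ∈ Level (∏ p ∈ S, p) (Real.exp (L / 2))) →
      c * N * (∏ p ∈ S, (1 - 1 / (p : ℝ))) * ∑ n ∈ range (∏ p ∈ S, p), ∑ j, V j n ^ 2 ≤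
        ∑ n ∈ range (∏ p ∈ S, p), (∑ j, V j n ^ 2) * alive S h n ∧
      ((∀ p ∈ S, (p : ℝ) ≤ Real.exp L) →
        c * Real.log (L / Real.log w) * ∑ n ∈ range (∏ p ∈ S, p), ∑ j, V j n ^ 2 ≤
          ∑ n ∈ range (∏ p ∈ S, p), (∑ j, V j n ^ 2) * alive S h n)) := by
  obtain ⟨L₁, h1⟩ := Pool.Agent.K4H10.BR.weights_final ε hε hε1
  obtain ⟨c, L₂, hc, h2⟩ := Pool.Agent.K4H10.BR.threshold ε hε hε1
  refine ⟨c, max L₁ L₂, hc, fun L hL => ⟨fun N h hh hN => ⟨?_, ?_⟩, ?_⟩⟩
  · obtain ⟨S, hS, V, hV, hV0, hV1⟩ := h1 L ((le_max_left _ _).trans hL) N h hh hN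
    exact ⟨S, hS, V, hV, hV0, hV1⟩
  · exact (h2 L ((le_max_right _ _).trans hL)).1 N h hh hN
  · exact (h2 L ((le_max_right _ _).trans hL)).2

end Pool.Agent.Results.MP_b0c12c_nt.SquareSieveThreshold
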