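import Mathlib
import Pool.Agent.K4H19.FQ.Fin2

set_option autoImplicit false

/-!
How often are the gaps between primes large?  For `λ` up to a small multiple of `log log N` a
proportion at least `exp (-exp (C λ))` of the indices `n < N` has both `p_(n+1) - p_n` and
`p_(n+2) - p_(n+1)` at least `λ log N`.

Author: helper19.  The proof covers `[-F, F]` around a prime by classes modulo primes with Maier's
matrix (relative Bombieri-Vinogradov with saving `exp (-(log X)^c)`, after the starting files
`Pool.Agent.H378R2.LSBV*`) and the random coverings of `Pool.Agent.Y831.RC*`, made uniform in `λ`.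
-/

namespace Pool.Agent.Results.MP_b0c12c_nt.UniformGapFrequency

/-- Writing `p_0 < p_1 < ...` for the primes (`p_n` is `Nat.nth Nat.Prime n`): there are `c, C > 0` such
that for all large `N` and all `1 ≤ l ≤ c log log N` at least `N exp (-exp (C l))` of the indices
`n < N` satisfy `p_(n+1) - p_n ≥ l log N` and `p_(n+2) - p_(n+1) ≥ l log N`. -/
theorem result : ∃ c C : ℝ, 0 < c ∧ 0 < C ∧ ∃ N₀ : ℕ, ∀ N : ℕ, N₀ ≤ N →
    ∀ l : ℝ, 1 ≤ l → l ≤ c * Real.log (Real.log N) →
    N * Real.exp (-Real.exp (C * l)) ≤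
      (((Finset.range N).filter (fun n : ℕ =>
        l * Real.log N ≤ (Nat.nth Nat.Prime (n + 1) : ℝ) - Nat.nth Nat.Prime n ∧
        l * Real.log N ≤ (Nat.nth Nat.Prime (n + 2) : ℝ) - Nat.nth Nat.Prime (n + 1))).card : ℝ) := by
  obtain ⟨c, C, X₀, hc, hC, _, h⟩ := Pool.Agent.K4H19.FQ.main_index
  exact ⟨c, C + 3, hc, by linarith, Pool.Agent.K4H19.FQ.main_N c C X₀ hc hC h⟩

end Pool.Agent.Results.MP_b0c12c_nt.UniformGapFrequency
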